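import Mathlib
import Pool.Agent.H29.FloD

namespace Pool.Agent.Results.MP_17669a_mp.Antisym

/-- The Floquet matrix `L_V(z)`, rows and columns numbered `0, …, q-1`. -/
noncomputable def floquet (q : ℕ) (V : Fin q → ℂ) (z : ℂ) : Matrix (Fin q) (Fin q) ℂ :=
  fun i j =>
    if i = j then V i
    else if (i : ℕ) + 1 = j ∨ (j : ℕ) + 1 = i then 1
    else if (i : ℕ) = 0 ∧ (j : ℕ) + 1 = q then z⁻¹
    else if (i : ℕ) + 1 = q ∧ (j : ℕ) = 0 then z
    else 0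

theorem result (q : ℕ) (hq : 3 < q) :
    ∃ V : Fin q → ℂ, V ≠ 0 ∧ (∀ j : Fin q, V j = - V j.rev) ∧
      ∀ z : ℂ, z ≠ 0 → (floquet q V z).charpoly = (floquet q 0 z).charpoly :=
  Pool.Agent.H29.Flo.main q hq

end Pool.Agent.Results.MP_17669a_mp.Antisym
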